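import Pool.Agent.TH400.LS_E4b
set_option autoImplicit false

/-! # Task LS-E4 (project of helper280): a weighted inequality for the Fourier transform -/

open MeasureTheory Set
open scoped ENNReal

namespace Pool.Agent.TH400.E4

open Pool.Agent.TH280.LS

/-- the self convolution -/
noncomputable def Q {m : ℕ} (H : (Fin m → ℝ) → ℂ) (ζ : Fin m → ℝ) : ℂ :=
  ∫ η : Fin m → ℝ, H η * H (ζ - η)

lemma Q_eq {m : ℕ} (H : (Fin m → ℝ) → ℂ) :
    Q H = MeasureTheory.convolution H H (ContinuousLinearMap.mul ℝ ℂ) volume := by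
  funext ζ
  rw [MeasureTheory.convolution_def]
  rfl

lemma Q_int {m : ℕ} {H : (Fin m → ℝ) → ℂ} (hH : Integrable H) : Integrable (Q H) := by
  rw [Q_eq]
  exact hH.integrable_convolution (ContinuousLinearMap.mul ℝ ℂ) hH

lemma sq_eq {m : ℕ} {H : (Fin m → ℝ) → ℂ} (hH : Integrable H) (y : Fin m → ℝ) :
    (∫ η : Fin m → ℝ, e (∑ i, y i * η i) * H η) ^ 2 =
      ∫ ζ : Fin m → ℝ, e (∑ i, y i * ζ i) * Q H ζ := by
  set L : (Fin m → ℝ) → ℂ := fun η => e (∑ i, y i * η i) with hL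
  have hLc : Continuous L := by
    rw [hL]
    exact continuous_e.comp (by fun_prop)
  have hadd : ∀ a b : Fin m → ℝ, L (a + b) = L a * L b := by
    intro a b
    rw [hL]
    dsimp only
    rw [← e_add]
    congr 1
    rw [← Finset.sum_add_distrib]
    refine Finset.sum_congr rfl fun i _ => ?_
    rw [Pi.add_apply]; ring
  have hLn : ∀ a, ‖L a‖ = 1 := fun a => norm_e _
  have hLH : Integrable (fun η => L η * H η) := by
    refine (hH.bdd_mul (c := 1) hLc.aestronglyMeasurable ?_)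
    exact Filter.Eventually.of_forall fun a => (hLn a).le
  have hci := hH.convolution_integrand (ContinuousLinearMap.mul ℝ ℂ) hH
  have hint : Integrable (fun p : (Fin m → ℝ) × (Fin m → ℝ) => L p.1 * (H p.2 * H (p.1 - p.2)))
      ((volume : Measure (Fin m → ℝ)).prod volume) := by
    have h1 : Integrable (fun p : (Fin m → ℝ) × (Fin m → ℝ) => H p.2 * H (p.1 - p.2))
      ((volume : Measure (Fin m → ℝ)).prod volume) := hci
    refine h1.bdd_mul (c := 1) (hLc.comp continuous_fst).aestronglyMeasurable ?_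
    exact Filter.Eventually.of_forall fun a => (hLn a.1).le
  have e1 : ∀ ζ : Fin m → ℝ, L ζ * Q H ζ = ∫ η : Fin m → ℝ, L ζ * (H η * H (ζ - η)) := by
    intro ζ
    unfold Q
    rw [integral_const_mul]
  calc (∫ η : Fin m → ℝ, L η * H η) ^ 2
      = ∫ η : Fin m → ℝ, (L η * H η) * ∫ θ : Fin m → ℝ, L θ * H θ := by
        rw [integral_mul_const, sq]
    _ = ∫ η : Fin m → ℝ, ∫ ζ : Fin m → ℝ, L ζ * (H η * H (ζ - η)) := by
        refine integral_congr_ae (Filter.Eventually.of_forall fun η => ?_)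
        dsimp only
        rw [← integral_const_mul]
        rw [← integral_add_right_eq_self (μ := (volume : Measure (Fin m → ℝ)))
          (fun ζ => L ζ * (H η * H (ζ - η))) η]
        refine integral_congr_ae (Filter.Eventually.of_forall fun θ => ?_)
        dsimp only
        rw [add_sub_cancel_right, hadd]; ring
    _ = ∫ ζ : Fin m → ℝ, ∫ η : Fin m → ℝ, L ζ * (H η * H (ζ - η)) :=
        (integral_integral_swap hint).symm
    _ = ∫ ζ : Fin m → ℝ, L ζ * Q H ζ := by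
        refine integral_congr_ae (Filter.Eventually.of_forall fun ζ => ?_)
        exact (e1 ζ).symm

/-- the case of measurable functions -/
lemma e4_meas {C1 C2 : ℝ} (hC1 : 0 < C1) (hC2 : 0 < C2) (m : ℕ)
    (hA : ∀ ζ : Fin m → ℝ, ∫⁻ η : Fin m → ℝ, w (-(3/4)) η * w (-(3/4)) (ζ - η) ≤
      ENNReal.ofReal (C1 ^ m) * w (-(1/2)) ζ)
    (hB : ∀ ζ : Fin m → ℝ, ∫⁻ η : Fin m → ℝ, w (-(3/4)) η * w (-(1/2)) (ζ - η) ≤
      ENNReal.ofReal (C2 ^ m) * w (-(1/4)) ζ)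
    (H : (Fin m → ℝ) → ℂ) (hH : Integrable H) (hm : Measurable H) :
    ∫⁻ y : Fin m → ℝ, ‖∫ η : Fin m → ℝ, e (∑ i, y i * η i) * H η‖ₑ ^ 4 ≤
      ENNReal.ofReal ((C1 * C2) ^ m) *
        ∫⁻ η : Fin m → ℝ, ENNReal.ofReal ((∏ i, |η i|) ^ 2) * ‖H η‖ₑ ^ 4 := by
  have hb := conv_bound hC1 hC2 m hA hB (fun η => ‖H η‖ₑ) hm.enorm
  have e0 : ∫⁻ η : Fin m → ℝ, w 2 η * ‖H η‖ₑ ^ 4 =
      ∫⁻ η : Fin m → ℝ, ENNReal.ofReal ((∏ i, |η i|) ^ 2) * ‖H η‖ₑ ^ 4 :=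
    lintegral_congr fun η => by rw [w_two]
  rw [e0] at hb
  set R : ℝ≥0∞ := ENNReal.ofReal ((C1 * C2) ^ m) *
        ∫⁻ η : Fin m → ℝ, ENNReal.ofReal ((∏ i, |η i|) ^ 2) * ‖H η‖ₑ ^ 4 with hR
  by_cases hRt : R = ⊤
  · rw [hRt]; exact le_top
  have hQb : ∫⁻ ζ : Fin m → ℝ, ‖Q H ζ‖ₑ ^ 2 ≤ R := by
    refine le_trans (lintegral_mono fun ζ => ?_) hb
    refine pow_le_pow_left' ?_ 2
    unfold Q
    refine (enorm_integral_le_lintegral_enorm _).trans (le_of_eq ?_)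
    refine lintegral_congr fun η => ?_
    rw [enorm_mul]
  have hQ := Q_int hH
  have hQ2 : MemLp (Q H) 2 := by
    refine ⟨hQ.1, ?_⟩
    rw [eLpNorm_lt_top_iff_lintegral_rpow_enorm_lt_top (by norm_num) (by norm_num)]
    simp only [ENNReal.toReal_ofNat, ENNReal.rpow_ofNat]
    exact hQb.trans_lt (lt_top_iff_ne_top.2 hRt)
  calc ∫⁻ y : Fin m → ℝ, ‖∫ η : Fin m → ℝ, e (∑ i, y i * η i) * H η‖ₑ ^ 4
      = ∫⁻ y : Fin m → ℝ, ‖∫ ζ : Fin m → ℝ, e (∑ i, y i * ζ i) * Q H ζ‖ₑ ^ 2 := by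
        refine lintegral_congr fun y => ?_
        rw [← sq_eq hH y, enorm_pow, ← pow_mul]
    _ = ∫⁻ ζ : Fin m → ℝ, ‖Q H ζ‖ₑ ^ 2 := ftm_planch (Q H) hQ hQ2
    _ ≤ R := hQb

theorem e4_thm : S_E4 := by
  obtain ⟨C1, hC1, h1⟩ := one_dim (a := 3/4) (b := 3/4) (by norm_num) (by norm_num) (by norm_num)
    (by norm_num) (by norm_num)
  obtain ⟨C2, hC2, h2⟩ := one_dim (a := 3/4) (b := 1/2) (by norm_num) (by norm_num) (by norm_num)
    (by norm_num) (by norm_num)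
  refine ⟨C1 * C2, by positivity, fun m H hH => ?_⟩
  have hA : ∀ ζ : Fin m → ℝ, ∫⁻ η : Fin m → ℝ, w (-(3/4)) η * w (-(3/4)) (ζ - η) ≤
      ENNReal.ofReal (C1 ^ m) * w (-(1/2)) ζ := by
    intro ζ
    have := multi hC1 h1 m ζ
    rwa [show (1 - 3/4 - 3/4 : ℝ) = -(1/2) by norm_num] at this
  have hB : ∀ ζ : Fin m → ℝ, ∫⁻ η : Fin m → ℝ, w (-(3/4)) η * w (-(1/2)) (ζ - η) ≤
      ENNReal.ofReal (C2 ^ m) * w (-(1/4)) ζ := by
    intro ζ
    have := multi hC2 h2 m ζ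
    rwa [show (1 - 3/4 - 1/2 : ℝ) = -(1/4) by norm_num] at this
  have hmk := hH.1.ae_eq_mk
  have hH' : Integrable (hH.1.mk H) := hH.congr hmk
  have key := e4_meas hC1 hC2 m hA hB _ hH' hH.1.stronglyMeasurable_mk.measurable
  have e1 : ∀ y : Fin m → ℝ, ∫ η : Fin m → ℝ, e (∑ i, y i * η i) * H η =
      ∫ η : Fin m → ℝ, e (∑ i, y i * η i) * (hH.1.mk H) η := by
    intro y
    refine integral_congr_ae ?_
    filter_upwards [hmk] with η h
    rw [h]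
  have e2 : ∫⁻ η : Fin m → ℝ, ENNReal.ofReal ((∏ i, |η i|) ^ 2) * ‖H η‖ₑ ^ 4 =
      ∫⁻ η : Fin m → ℝ, ENNReal.ofReal ((∏ i, |η i|) ^ 2) * ‖(hH.1.mk H) η‖ₑ ^ 4 := by
    refine lintegral_congr_ae ?_
    filter_upwards [hmk] with η h
    rw [h]
  rw [e2]
  simp_rw [e1]
  exact key

end Pool.Agent.TH400.E4
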