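import Pool.Agent.TH280.LS.Stm
set_option autoImplicit false

/-! # Task LS-E4 (project of helper280), part 1: one dimensional integrals and products -/

open MeasureTheory Set
open scoped ENNReal

namespace Pool.Agent.TH400.E4

/-- Cauchy–Schwarz for the lower integral -/
theorem cs {Y : Type*} [MeasurableSpace Y] (ν : Measure Y)
    (f g : Y → ℝ≥0∞) (hf : AEMeasurable f ν) (hg : AEMeasurable g ν) :
    (∫⁻ y, f y * g y ∂ν) ^ 2 ≤ (∫⁻ y, f y ^ 2 ∂ν) * ∫⁻ y, g y ^ 2 ∂ν := by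
  have h := ENNReal.lintegral_mul_le_Lp_mul_Lq ν (p := 2) (q := 2) Real.HolderConjugate.two_two hf hg
  have h2 : (∫⁻ y, f y * g y ∂ν) ^ (2 : ℝ) ≤
      ((∫⁻ y, f y ^ (2 : ℝ) ∂ν) ^ (1 / (2 : ℝ)) * (∫⁻ y, g y ^ (2 : ℝ) ∂ν) ^ (1 / (2 : ℝ))) ^ (2 : ℝ) :=
    ENNReal.rpow_le_rpow h (by norm_num)
  rw [ENNReal.mul_rpow_of_nonneg _ _ (by norm_num : (0 : ℝ) ≤ 2), ← ENNReal.rpow_mul,
    ← ENNReal.rpow_mul] at h2
  norm_num at h2
  exact h2

/-- product of lower integrals -/
lemma lint_prod : ∀ (n : ℕ) (b : Fin n → ℝ → ℝ≥0∞), (∀ i, Measurable (b i)) →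
    ∫⁻ z : Fin n → ℝ, ∏ i, b i (z i) = ∏ i, ∫⁻ p, b i p := by
  intro n
  induction n with
  | zero =>
    intro b hb
    simp [volume_pi, Measure.pi_empty_univ]
  | succ n ih =>
    intro b hb
    have h := volume_preserving_piFinSuccAbove (fun _ : Fin (n + 1) => ℝ) 0
    have hF : Measurable (fun z : Fin (n + 1) → ℝ => ∏ i, b i (z i)) :=
      Finset.measurable_fun_prod _ fun i _ => (hb i).comp (measurable_pi_apply i)
    rw [← h.symm.lintegral_comp hF]
    have e : ∀ ty : ℝ × (Fin n → ℝ),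
        ∏ i, b i ((MeasurableEquiv.piFinSuccAbove (fun _ : Fin (n + 1) => ℝ) 0).symm ty i) =
          b 0 ty.1 * ∏ i : Fin n, b i.succ (ty.2 i) := by
      intro ty
      rw [Fin.prod_univ_succ]
      congr 1
    rw [lintegral_congr e]
    have hG : Measurable (fun y : Fin n → ℝ => ∏ i : Fin n, b i.succ (y i)) :=
      Finset.measurable_fun_prod _ fun i _ => (hb i.succ).comp (measurable_pi_apply i)
    have h2 := lintegral_prod_mul (μ := (volume : Measure ℝ))
      (ν := (volume : Measure (Fin n → ℝ))) (hb 0).aemeasurable hG.aemeasurable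
    rw [Measure.volume_eq_prod, h2, ih _ fun i => hb i.succ, Fin.prod_univ_succ]

/-- scaling -/
lemma lint_scale {z : ℝ} (hz : z ≠ 0) (f : ℝ → ℝ≥0∞) (hf : Measurable f) :
    ∫⁻ x, f x = ENNReal.ofReal |z| * ∫⁻ u, f (z * u) := by
  conv_lhs => rw [← Real.smul_map_volume_mul_left hz]
  rw [lintegral_smul_measure, lintegral_map hf (measurable_const_mul z), smul_eq_mul]

/-- absolute value -/
noncomputable def q (x : ℝ) : ℝ≥0∞ := ENNReal.ofReal |x|

lemma q_meas : Measurable q := by unfold q; fun_prop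

lemma q_top (x : ℝ) : q x ≠ ⊤ := ENNReal.ofReal_ne_top

lemma q_zero {x : ℝ} (hx : x ≠ 0) : q x ≠ 0 := by
  unfold q
  simpa using hx

lemma q_neg (x : ℝ) : q (-x) = q x := by unfold q; rw [abs_neg]

lemma q_mul (x y : ℝ) : q (x * y) = q x * q y := by
  unfold q
  rw [abs_mul, ENNReal.ofReal_mul (abs_nonneg _)]

lemma q_sub_comm (x y : ℝ) : q (x - y) = q (y - x) := by rw [← q_neg, neg_sub]

lemma q_rpow {x : ℝ} (hx : x ≠ 0) (s : ℝ) : q x ^ s = ENNReal.ofReal (|x| ^ s) := by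
  unfold q
  rw [ENNReal.ofReal_rpow_of_pos (abs_pos.2 hx)]

/-- integrability near zero -/
lemma fin_zero {a : ℝ} (ha : a < 1) :
    ∫⁻ u : ℝ, (Icc (-3 : ℝ) 3).indicator (fun u => q u ^ (-a)) u < ⊤ := by
  set G : ℝ → ℝ≥0∞ := (Ioc (0 : ℝ) 3).indicator (fun u => ENNReal.ofReal (u ^ (-a))) with hG
  have hGm : Measurable G := by
    rw [hG]
    refine Measurable.indicator ?_ measurableSet_Ioc
    fun_prop
  have h1 : ∫⁻ u : ℝ, G u < ⊤ := by
    rw [hG, lintegral_indicator measurableSet_Ioc]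
    have h := (intervalIntegral.intervalIntegrable_rpow' (a := 0) (b := 3) (r := -a)
      (by linarith)).1
    exact h.lintegral_lt_top
  have h2 : ∫⁻ u : ℝ, G (-u) < ⊤ := by
    rw [lintegral_neg_eq_self]; exact h1
  have hne : ∀ᵐ u : ℝ, u ≠ 0 := by simp [ae_iff]
  calc ∫⁻ u : ℝ, (Icc (-3 : ℝ) 3).indicator (fun u => q u ^ (-a)) u
      ≤ ∫⁻ u : ℝ, (G u + G (-u)) := by
        refine lintegral_mono_ae ?_
        filter_upwards [hne] with u hu
        by_cases hm : u ∈ Icc (-3 : ℝ) 3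
        · rw [indicator_of_mem hm, q_rpow hu]
          rcases lt_or_gt_of_ne hu with h | h
          · have hmm : -u ∈ Ioc (0 : ℝ) 3 := ⟨by linarith, by linarith [hm.1]⟩
            have : G (-u) = ENNReal.ofReal ((-u) ^ (-a)) := by
              rw [hG, indicator_of_mem hmm]
            rw [this, abs_of_neg h]
            exact le_add_self
          · have hmm : u ∈ Ioc (0 : ℝ) 3 := ⟨h, hm.2⟩
            have : G u = ENNReal.ofReal (u ^ (-a)) := by
              rw [hG, indicator_of_mem hmm]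
            rw [this, abs_of_pos h]
            exact le_self_add
        · rw [indicator_of_notMem hm]; exact zero_le
    _ = (∫⁻ u : ℝ, G u) + ∫⁻ u : ℝ, G (-u) := by
        rw [lintegral_add_left hGm]
    _ < ⊤ := ENNReal.add_lt_top.2 ⟨h1, h2⟩

/-- integrability at infinity -/
lemma fin_inf {c : ℝ} (hc : 1 < c) :
    ∫⁻ u : ℝ, {u : ℝ | 2 ≤ |u|}.indicator (fun u => q u ^ (-c)) u < ⊤ := by
  set G : ℝ → ℝ≥0∞ := (Ioi (1 : ℝ)).indicator (fun u => ENNReal.ofReal (u ^ (-c))) with hG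
  have hGm : Measurable G := by
    rw [hG]
    refine Measurable.indicator ?_ measurableSet_Ioi
    fun_prop
  have h1 : ∫⁻ u : ℝ, G u < ⊤ := by
    rw [hG, lintegral_indicator measurableSet_Ioi]
    have h := integrableOn_Ioi_rpow_of_lt (a := -c) (c := 1) (by linarith) one_pos
    exact h.lintegral_lt_top
  have h2 : ∫⁻ u : ℝ, G (-u) < ⊤ := by
    rw [lintegral_neg_eq_self]; exact h1
  calc ∫⁻ u : ℝ, {u : ℝ | 2 ≤ |u|}.indicator (fun u => q u ^ (-c)) u
      ≤ ∫⁻ u : ℝ, (G u + G (-u)) := by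
        refine lintegral_mono fun u => ?_
        by_cases hm : u ∈ {u : ℝ | 2 ≤ |u|}
        · have hm' : 2 ≤ |u| := hm
          have hu : u ≠ 0 := by
            intro h; rw [h, abs_zero] at hm'; linarith
          rw [indicator_of_mem hm, q_rpow hu]
          rcases lt_or_gt_of_ne hu with h | h
          · have hmm : -u ∈ Ioi (1 : ℝ) := by
              rw [abs_of_neg h] at hm'; exact mem_Ioi.2 (by linarith)
            have : G (-u) = ENNReal.ofReal ((-u) ^ (-c)) := by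
              rw [hG, indicator_of_mem hmm]
            rw [this, abs_of_neg h]
            exact le_add_self
          · have hmm : u ∈ Ioi (1 : ℝ) := by
              rw [abs_of_pos h] at hm'; exact mem_Ioi.2 (by linarith)
            have : G u = ENNReal.ofReal (u ^ (-c)) := by
              rw [hG, indicator_of_mem hmm]
            rw [this, abs_of_pos h]
            exact le_self_add
        · rw [indicator_of_notMem hm]; exact zero_le
    _ = (∫⁻ u : ℝ, G u) + ∫⁻ u : ℝ, G (-u) := by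
        rw [lintegral_add_left hGm]
    _ < ⊤ := ENNReal.add_lt_top.2 ⟨h1, h2⟩

/-- a bound for small values -/
lemma q_half {x s : ℝ} (hs0 : 0 < s) (hs1 : s < 1) (hx : 1 / 2 ≤ |x|) : q x ^ (-s) ≤ 2 := by
  have hx0 : x ≠ 0 := by intro h; rw [h, abs_zero] at hx; linarith
  rw [q_rpow hx0]
  have h1 : |x| ^ (-s) ≤ 2 := by
    rw [Real.rpow_neg (abs_nonneg _)]
    have h2 : (1 / 2 : ℝ) ≤ |x| ^ s := by
      calc (1 / 2 : ℝ) = (1 / 2 : ℝ) ^ (1 : ℝ) := by rw [Real.rpow_one]
        _ ≤ (1 / 2 : ℝ) ^ s := Real.rpow_le_rpow_of_exponent_ge (by norm_num) (by norm_num) hs1.le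
        _ ≤ |x| ^ s := Real.rpow_le_rpow (by norm_num) hx hs0.le
    rw [inv_le_comm₀ (by linarith) (by norm_num)]
    linarith
  calc ENNReal.ofReal (|x| ^ (-s)) ≤ ENNReal.ofReal 2 := ENNReal.ofReal_le_ofReal h1
    _ = 2 := by simp

/-- finiteness of the basic integral -/
lemma fin_one {a b : ℝ} (ha : 0 < a) (ha1 : a < 1) (hb : 0 < b) (hb1 : b < 1) (hab : 1 < a + b) :
    ∫⁻ u : ℝ, q u ^ (-a) * q (1 - u) ^ (-b) < ⊤ := by
  set G1 : ℝ → ℝ≥0∞ := (Icc (-3 : ℝ) 3).indicator (fun u => q u ^ (-a)) with hG1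
  set G2 : ℝ → ℝ≥0∞ := (Icc (-3 : ℝ) 3).indicator (fun u => q u ^ (-b)) with hG2
  set G3 : ℝ → ℝ≥0∞ := {u : ℝ | 2 ≤ |u|}.indicator (fun u => q u ^ (-(a + b))) with hG3
  have hms : MeasurableSet {u : ℝ | 2 ≤ |u|} := measurableSet_le measurable_const (by fun_prop)
  have m1 : Measurable G1 := (q_meas.pow_const _).indicator measurableSet_Icc
  have m2 : Measurable G2 := (q_meas.pow_const _).indicator measurableSet_Icc
  have m3 : Measurable G3 := (q_meas.pow_const _).indicator hms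
  have key : ∀ u : ℝ, q u ^ (-a) * q (1 - u) ^ (-b) ≤ 2 * (G1 u + (G2 (1 - u) + G3 u)) := by
    intro u
    by_cases h2 : 2 ≤ |u|
    · have hu : u ≠ 0 := by intro h; rw [h, abs_zero] at h2; linarith
      have h3 : |u| / 2 ≤ |1 - u| := by
        have : |u| ≤ |1 - u| + 1 := by
          calc |u| = |1 - (1 - u)| := by ring_nf
            _ ≤ |(1 : ℝ)| + |1 - u| := abs_sub _ _
            _ = |1 - u| + 1 := by rw [abs_one]; ring
        linarith
      have hu1 : 1 - u ≠ 0 := by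
        intro h; rw [h, abs_zero] at h3; linarith
      have h4 : q (1 - u) ^ (-b) ≤ 2 * q u ^ (-b) := by
        rw [q_rpow hu1, q_rpow hu]
        have h5 : |1 - u| ^ (-b) ≤ 2 * |u| ^ (-b) := by
          calc |1 - u| ^ (-b) ≤ (|u| / 2) ^ (-b) :=
                Real.rpow_le_rpow_of_nonpos (by positivity) h3 (by linarith)
            _ = |u| ^ (-b) * (2 : ℝ) ^ b := by
                rw [Real.div_rpow (abs_nonneg _) (by norm_num), Real.rpow_neg (by norm_num : (0:ℝ) ≤ 2),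
                  div_inv_eq_mul]
            _ ≤ |u| ^ (-b) * 2 := by
                refine mul_le_mul_of_nonneg_left ?_ (by positivity)
                calc (2 : ℝ) ^ b ≤ 2 ^ (1 : ℝ) :=
                      Real.rpow_le_rpow_of_exponent_le (by norm_num) hb1.le
                  _ = 2 := Real.rpow_one _
            _ = 2 * |u| ^ (-b) := mul_comm _ _
        calc ENNReal.ofReal (|1 - u| ^ (-b)) ≤ ENNReal.ofReal (2 * |u| ^ (-b)) :=
              ENNReal.ofReal_le_ofReal h5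
          _ = 2 * ENNReal.ofReal (|u| ^ (-b)) := by
              rw [ENNReal.ofReal_mul (by norm_num)]; simp
      have h6 : G3 u = q u ^ (-(a + b)) := by rw [hG3, indicator_of_mem (by exact h2)]
      calc q u ^ (-a) * q (1 - u) ^ (-b) ≤ q u ^ (-a) * (2 * q u ^ (-b)) := by gcongr
        _ = 2 * (q u ^ (-a) * q u ^ (-b)) := by ring
        _ = 2 * G3 u := by
            rw [h6, ← ENNReal.rpow_add _ _ (q_zero hu) (q_top u)]
            congr 2; ring
        _ ≤ 2 * (G1 u + (G2 (1 - u) + G3 u)) := by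
            gcongr
            exact le_add_self.trans le_add_self
    · rw [not_le] at h2
      have h2' := abs_lt.1 h2
      by_cases h3 : 1 / 2 ≤ |u|
      · have hmm : 1 - u ∈ Icc (-3 : ℝ) 3 := ⟨by linarith, by linarith⟩
        have h6 : G2 (1 - u) = q (1 - u) ^ (-b) := by rw [hG2, indicator_of_mem hmm]
        calc q u ^ (-a) * q (1 - u) ^ (-b) ≤ 2 * q (1 - u) ^ (-b) := by
              gcongr; exact q_half ha ha1 h3
          _ = 2 * G2 (1 - u) := by rw [h6]
          _ ≤ 2 * (G1 u + (G2 (1 - u) + G3 u)) := by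
              gcongr
              exact le_self_add.trans le_add_self
      · rw [not_le] at h3
        have h3' := abs_lt.1 h3
        have hmm : u ∈ Icc (-3 : ℝ) 3 := ⟨by linarith, by linarith⟩
        have h6 : G1 u = q u ^ (-a) := by rw [hG1, indicator_of_mem hmm]
        have h7 : 1 / 2 ≤ |1 - u| := by
          rw [abs_of_pos (by linarith)]; linarith
        calc q u ^ (-a) * q (1 - u) ^ (-b) ≤ q u ^ (-a) * 2 := by
              gcongr; exact q_half hb hb1 h7
          _ = 2 * G1 u := by rw [h6, mul_comm]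
          _ ≤ 2 * (G1 u + (G2 (1 - u) + G3 u)) := by
              gcongr
              exact le_self_add
  have hI2 : ∫⁻ u : ℝ, G2 (1 - u) < ⊤ := by
    rw [lintegral_sub_left_eq_self (μ := (volume : Measure ℝ)) G2 1]
    exact fin_zero hb1
  calc ∫⁻ u : ℝ, q u ^ (-a) * q (1 - u) ^ (-b) ≤ ∫⁻ u : ℝ, 2 * (G1 u + (G2 (1 - u) + G3 u)) :=
        lintegral_mono key
    _ = 2 * ((∫⁻ u, G1 u) + ((∫⁻ u, G2 (1 - u)) + ∫⁻ u, G3 u)) := by
        rw [lintegral_const_mul' _ _ (by norm_num), lintegral_add_left m1, lintegral_add_right _ m3]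
    _ < ⊤ := ENNReal.mul_lt_top (by norm_num) (ENNReal.add_lt_top.2 ⟨fin_zero ha1,
        ENNReal.add_lt_top.2 ⟨hI2, fin_inf hab⟩⟩)

/-- the one dimensional estimate -/
lemma one_dim {a b : ℝ} (ha : 0 < a) (ha1 : a < 1) (hb : 0 < b) (hb1 : b < 1) (hab : 1 < a + b) :
    ∃ c : ℝ, 0 < c ∧ ∀ z : ℝ, ∫⁻ x : ℝ, q x ^ (-a) * q (z - x) ^ (-b) ≤
      ENNReal.ofReal c * q z ^ (1 - a - b) := by
  have hfin := fin_one ha ha1 hb hb1 hab
  set J : ℝ≥0∞ := ∫⁻ u : ℝ, q u ^ (-a) * q (1 - u) ^ (-b) with hJ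
  refine ⟨J.toReal + 1, by positivity, fun z => ?_⟩
  have hJc : J ≤ ENNReal.ofReal (J.toReal + 1) := by
    rw [← ENNReal.ofReal_toReal hfin.ne]
    refine ENNReal.ofReal_le_ofReal ?_
    rw [ENNReal.toReal_ofReal ENNReal.toReal_nonneg]
    linarith
  by_cases hz : z = 0
  · have h1 : q z ^ (1 - a - b) = ⊤ := by
      rw [hz]
      unfold q
      rw [abs_zero, ENNReal.ofReal_zero, ENNReal.zero_rpow_of_neg (by linarith)]
    rw [h1, ENNReal.mul_top]
    · exact le_top
    · rw [Ne, ENNReal.ofReal_eq_zero, not_le]; positivity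
  · have hm : Measurable (fun x : ℝ => q x ^ (-a) * q (z - x) ^ (-b)) :=
      (q_meas.pow_const _).mul ((q_meas.comp (measurable_const.sub measurable_id)).pow_const _)
    rw [lint_scale hz _ hm]
    have h2 : ∀ u : ℝ, q (z * u) ^ (-a) * q (z - z * u) ^ (-b) =
        (q z ^ (-a) * q z ^ (-b)) * (q u ^ (-a) * q (1 - u) ^ (-b)) := by
      intro u
      have : z - z * u = z * (1 - u) := by ring
      rw [this, q_mul, q_mul, ENNReal.mul_rpow_of_ne_top (q_top _) (q_top _),
        ENNReal.mul_rpow_of_ne_top (q_top _) (q_top _)]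
      ring
    rw [lintegral_congr h2, lintegral_const_mul]
    · rw [← hJ]
      have h3 : ENNReal.ofReal |z| * (q z ^ (-a) * q z ^ (-b) * J) = J * q z ^ (1 - a - b) := by
        have h4 : ENNReal.ofReal |z| = q z ^ (1 : ℝ) := by rw [ENNReal.rpow_one]; rfl
        have h5 : q z ^ (1 - a - b) = q z ^ (1 : ℝ) * (q z ^ (-a) * q z ^ (-b)) := by
          rw [← ENNReal.rpow_add _ _ (q_zero hz) (q_top z),
            ← ENNReal.rpow_add _ _ (q_zero hz) (q_top z)]
          congr 1; ring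
        rw [h5, h4]; ring
      rw [h3]
      gcongr
    · exact (q_meas.pow_const _).mul
        ((q_meas.comp (measurable_const.sub measurable_id)).pow_const _)

/-- product weights -/
noncomputable def w {m : ℕ} (s : ℝ) (η : Fin m → ℝ) : ℝ≥0∞ := ∏ i, q (η i) ^ s

lemma w_meas {m : ℕ} (s : ℝ) : Measurable (w (m := m) s) := by
  unfold w
  exact Finset.measurable_fun_prod _ fun i _ => (q_meas.comp (measurable_pi_apply i)).pow_const _

lemma w_neg {m : ℕ} (s : ℝ) (η : Fin m → ℝ) : w s (-η) = w s η := by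
  unfold w
  refine Finset.prod_congr rfl fun i _ => ?_
  rw [Pi.neg_apply, q_neg]

lemma w_sq {m : ℕ} (s : ℝ) (η : Fin m → ℝ) : w s η ^ 2 = w (2 * s) η := by
  unfold w
  rw [← Finset.prod_pow]
  refine Finset.prod_congr rfl fun i _ => ?_
  rw [← ENNReal.rpow_natCast, ← ENNReal.rpow_mul]
  congr 1; push_cast; ring

lemma w_add {m : ℕ} (s t : ℝ) {η : Fin m → ℝ} (h : ∀ i, η i ≠ 0) :
    w s η * w t η = w (s + t) η := by
  unfold w
  rw [← Finset.prod_mul_distrib]
  refine Finset.prod_congr rfl fun i _ => ?_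
  rw [ENNReal.rpow_add _ _ (q_zero (h i)) (q_top _)]

lemma w_zero {m : ℕ} (η : Fin m → ℝ) : w 0 η = 1 := by
  unfold w
  simp

lemma w_two {m : ℕ} (η : Fin m → ℝ) : w 2 η = ENNReal.ofReal ((∏ i, |η i|) ^ 2) := by
  unfold w q
  rw [← Finset.prod_pow, ENNReal.ofReal_prod_of_nonneg fun i _ => by positivity]
  refine Finset.prod_congr rfl fun i _ => ?_
  rw [ENNReal.ofReal_pow (abs_nonneg _)]
  norm_num

lemma ae_good (m : ℕ) : ∀ᵐ η : Fin m → ℝ, ∀ i, η i ≠ 0 := by
  rw [ae_all_iff]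
  intro i
  exact Measure.ae_eval_ne (fun _ : Fin m => (volume : Measure ℝ)) i (0 : ℝ)

/-- the estimate in several variables -/
lemma multi {a b c : ℝ} (hc : 0 < c) (h : ∀ z : ℝ, ∫⁻ x : ℝ, q x ^ (-a) * q (z - x) ^ (-b) ≤
      ENNReal.ofReal c * q z ^ (1 - a - b)) (m : ℕ) (ζ : Fin m → ℝ) :
    ∫⁻ η : Fin m → ℝ, w (-a) η * w (-b) (ζ - η) ≤
      ENNReal.ofReal (c ^ m) * w (1 - a - b) ζ := by
  have h1 : ∀ η : Fin m → ℝ, w (-a) η * w (-b) (ζ - η) =
      ∏ i, (fun x => q x ^ (-a) * q (ζ i - x) ^ (-b)) (η i) := by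
    intro η
    unfold w
    rw [← Finset.prod_mul_distrib]
    rfl
  rw [lintegral_congr h1, lint_prod m (fun i x => q x ^ (-a) * q (ζ i - x) ^ (-b))]
  · calc ∏ i, ∫⁻ x : ℝ, q x ^ (-a) * q (ζ i - x) ^ (-b)
        ≤ ∏ i, (ENNReal.ofReal c * q (ζ i) ^ (1 - a - b)) :=
          Finset.prod_le_prod' fun i _ => h (ζ i)
      _ = ENNReal.ofReal (c ^ m) * w (1 - a - b) ζ := by
          rw [Finset.prod_mul_distrib, Finset.prod_const, Finset.card_univ, Fintype.card_fin,
            ENNReal.ofReal_pow hc.le]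
          rfl
  · intro i
    exact (q_meas.pow_const _).mul ((q_meas.comp (measurable_const.sub measurable_id)).pow_const _)

end Pool.Agent.TH400.E4
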