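import Pool.Agent.TH400.LS_E4a
set_option autoImplicit false

/-! # Task LS-E4 (project of helper280), part 2: the self convolution -/

open MeasureTheory Set
open scoped ENNReal

namespace Pool.Agent.TH400.E4

/-- weighted Schur-type bound for the self convolution -/
lemma conv_bound {C1 C2 : ℝ} (hC1 : 0 < C1) (hC2 : 0 < C2) (m : ℕ)
    (hA : ∀ ζ : Fin m → ℝ, ∫⁻ η : Fin m → ℝ, w (-(3/4)) η * w (-(3/4)) (ζ - η) ≤
      ENNReal.ofReal (C1 ^ m) * w (-(1/2)) ζ)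
    (hB : ∀ ζ : Fin m → ℝ, ∫⁻ η : Fin m → ℝ, w (-(3/4)) η * w (-(1/2)) (ζ - η) ≤
      ENNReal.ofReal (C2 ^ m) * w (-(1/4)) ζ)
    (h : (Fin m → ℝ) → ℝ≥0∞) (hm : Measurable h) :
    ∫⁻ ζ : Fin m → ℝ, (∫⁻ η : Fin m → ℝ, h η * h (ζ - η)) ^ 2 ≤
      ENNReal.ofReal ((C1 * C2) ^ m) * ∫⁻ η : Fin m → ℝ, w 2 η * h η ^ 4 := by
  have hgood := ae_good m
  have hgood2 : ∀ ζ : Fin m → ℝ, ∀ᵐ η : Fin m → ℝ, ∀ i, (ζ - η) i ≠ 0 := by
    intro ζ
    exact (Measure.measurePreserving_sub_left volume ζ).quasiMeasurePreserving.ae hgood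
  have msub : Measurable (fun p : (Fin m → ℝ) × (Fin m → ℝ) => p.1 - p.2) := measurable_fst.sub measurable_snd
  -- Step A
  have stepA : ∀ ζ : Fin m → ℝ, (∫⁻ η : Fin m → ℝ, h η * h (ζ - η)) ^ 2 ≤
      ENNReal.ofReal (C1 ^ m) * ∫⁻ η : Fin m → ℝ,
        w (-(1/2)) ζ * ((w (3/4) η * w (3/4) (ζ - η)) * (h η ^ 2 * h (ζ - η) ^ 2)) := by
    intro ζ
    have ms : Measurable (fun η : Fin m → ℝ => ζ - η) := measurable_const.sub measurable_id
    have e1 : ∫⁻ η : Fin m → ℝ, h η * h (ζ - η) =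
        ∫⁻ η : Fin m → ℝ, (w (-(3/8)) η * w (-(3/8)) (ζ - η)) *
          ((w (3/8) η * w (3/8) (ζ - η)) * (h η * h (ζ - η))) := by
      refine lintegral_congr_ae ?_
      filter_upwards [hgood, hgood2 ζ] with η h1 h2
      have a1 : w (-(3/8)) η * w (3/8) η = 1 := by
        rw [w_add _ _ h1, show (-(3/8) + 3/8 : ℝ) = 0 by norm_num, w_zero]
      have a2 : w (-(3/8)) (ζ - η) * w (3/8) (ζ - η) = 1 := by
        rw [w_add _ _ h2, show (-(3/8) + 3/8 : ℝ) = 0 by norm_num, w_zero]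
      calc h η * h (ζ - η) = 1 * 1 * (h η * h (ζ - η)) := by ring
        _ = (w (-(3/8)) η * w (3/8) η) * (w (-(3/8)) (ζ - η) * w (3/8) (ζ - η)) *
            (h η * h (ζ - η)) := by rw [a1, a2]
        _ = _ := by ring
    rw [e1]
    have m1 : Measurable (fun η : Fin m → ℝ => w (-(3/8)) η * w (-(3/8)) (ζ - η)) :=
      (w_meas _).mul ((w_meas _).comp ms)
    have m2 : Measurable (fun η : Fin m → ℝ => (w (3/8) η * w (3/8) (ζ - η)) * (h η * h (ζ - η))) :=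
      ((w_meas _).mul ((w_meas _).comp ms)).mul (hm.mul (hm.comp ms))
    refine (cs volume _ _ m1.aemeasurable m2.aemeasurable).trans ?_
    have e2 : ∫⁻ η : Fin m → ℝ, (w (-(3/8)) η * w (-(3/8)) (ζ - η)) ^ 2 =
        ∫⁻ η : Fin m → ℝ, w (-(3/4)) η * w (-(3/4)) (ζ - η) := by
      refine lintegral_congr fun η => ?_
      rw [mul_pow, w_sq, w_sq]
      norm_num
    have e3 : ∫⁻ η : Fin m → ℝ, ((w (3/8) η * w (3/8) (ζ - η)) * (h η * h (ζ - η))) ^ 2 =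
        ∫⁻ η : Fin m → ℝ, (w (3/4) η * w (3/4) (ζ - η)) * (h η ^ 2 * h (ζ - η) ^ 2) := by
      refine lintegral_congr fun η => ?_
      rw [mul_pow, mul_pow, mul_pow, w_sq, w_sq]
      norm_num
    rw [e2, e3]
    refine (mul_le_mul_left (hA ζ) _).trans ?_
    rw [mul_assoc]
    gcongr
    rw [lintegral_const_mul]
    exact ((w_meas _).mul ((w_meas _).comp ms)).mul ((hm.pow_const 2).mul ((hm.comp ms).pow_const 2))
  -- Step C
  have mF : Measurable (fun p : (Fin m → ℝ) × (Fin m → ℝ) =>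
      w (-(1/2)) p.1 * ((w (3/4) p.2 * w (3/4) (p.1 - p.2)) * (h p.2 ^ 2 * h (p.1 - p.2) ^ 2))) :=
    ((w_meas _).comp measurable_fst).mul
      ((((w_meas _).comp measurable_snd).mul ((w_meas _).comp msub)).mul
        (((hm.comp measurable_snd).pow_const 2).mul ((hm.comp msub).pow_const 2)))
  have stepC : ∫⁻ ζ : Fin m → ℝ, (∫⁻ η : Fin m → ℝ, h η * h (ζ - η)) ^ 2 ≤
      ENNReal.ofReal (C1 ^ m) * ∫⁻ η : Fin m → ℝ, ∫⁻ θ : Fin m → ℝ,
        w (-(1/2)) (θ + η) * ((w (3/4) η * w (3/4) θ) * (h η ^ 2 * h θ ^ 2)) := by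
    refine (lintegral_mono stepA).trans ?_
    rw [lintegral_const_mul' _ _ ENNReal.ofReal_ne_top]
    refine mul_le_mul' le_rfl ?_
    rw [lintegral_lintegral_swap (f := fun ζ η => w (-(1/2)) ζ *
      ((w (3/4) η * w (3/4) (ζ - η)) * (h η ^ 2 * h (ζ - η) ^ 2))) mF.aemeasurable]
    refine lintegral_mono fun η => le_of_eq ?_
    rw [← lintegral_add_right_eq_self (μ := (volume : Measure (Fin m → ℝ)))
      (fun ζ => w (-(1/2)) ζ * ((w (3/4) η * w (3/4) (ζ - η)) * (h η ^ 2 * h (ζ - η) ^ 2))) η]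
    refine lintegral_congr fun θ => ?_
    rw [add_sub_cancel_right]
  -- Step E
  set S : ℝ≥0∞ := ENNReal.ofReal (C2 ^ m) * ∫⁻ η : Fin m → ℝ, w 2 η * h η ^ 4 with hS
  have stepE : ∫⁻ η : Fin m → ℝ, ∫⁻ θ : Fin m → ℝ,
      w (-(1/2)) (θ + η) * (w (9/4) η * w (-(3/4)) θ * h η ^ 4) ≤ S := by
    have : ∀ᵐ η : Fin m → ℝ, ∫⁻ θ : Fin m → ℝ,
        w (-(1/2)) (θ + η) * (w (9/4) η * w (-(3/4)) θ * h η ^ 4) ≤
        ENNReal.ofReal (C2 ^ m) * (w 2 η * h η ^ 4) := by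
      filter_upwards [hgood] with η h1
      have e1 : ∀ θ : Fin m → ℝ, w (-(1/2)) (θ + η) * (w (9/4) η * w (-(3/4)) θ * h η ^ 4) =
          (w (9/4) η * h η ^ 4) * (w (-(3/4)) θ * w (-(1/2)) (θ + η)) := by
        intro θ; ring
      have mm : Measurable (fun θ : Fin m → ℝ => w (-(3/4)) θ * w (-(1/2)) (θ + η)) :=
        (w_meas _).mul ((w_meas _).comp (measurable_id.add measurable_const))
      rw [lintegral_congr e1, lintegral_const_mul _ mm]
      have e2 : ∫⁻ θ : Fin m → ℝ, w (-(3/4)) θ * w (-(1/2)) (θ + η) =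
          ∫⁻ θ : Fin m → ℝ, w (-(3/4)) θ * w (-(1/2)) (η - θ) := by
        rw [← lintegral_neg_eq_self (μ := (volume : Measure (Fin m → ℝ)))
          (fun θ => w (-(3/4)) θ * w (-(1/2)) (θ + η))]
        refine lintegral_congr fun θ => ?_
        rw [w_neg, neg_add_eq_sub]
      rw [e2]
      calc w (9/4) η * h η ^ 4 * ∫⁻ θ : Fin m → ℝ, w (-(3/4)) θ * w (-(1/2)) (η - θ)
          ≤ w (9/4) η * h η ^ 4 * (ENNReal.ofReal (C2 ^ m) * w (-(1/4)) η) := by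
            gcongr; exact hB η
        _ = ENNReal.ofReal (C2 ^ m) * ((w (9/4) η * w (-(1/4)) η) * h η ^ 4) := by ring
        _ = ENNReal.ofReal (C2 ^ m) * (w 2 η * h η ^ 4) := by
            rw [w_add _ _ h1]; norm_num
    refine (lintegral_mono_ae this).trans ?_
    rw [lintegral_const_mul' _ _ ENNReal.ofReal_ne_top]
  have mE : Measurable (fun p : (Fin m → ℝ) × (Fin m → ℝ) =>
      w (-(1/2)) (p.2 + p.1) * (w (9/4) p.2 * w (-(3/4)) p.1 * h p.2 ^ 4)) :=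
    ((w_meas _).comp (measurable_snd.add measurable_fst)).mul
      ((((w_meas _).comp measurable_snd).mul ((w_meas _).comp measurable_fst)).mul
        ((hm.comp measurable_snd).pow_const 4))
  have stepE' : ∫⁻ η : Fin m → ℝ, ∫⁻ θ : Fin m → ℝ,
      w (-(1/2)) (θ + η) * (w (9/4) θ * w (-(3/4)) η * h θ ^ 4) ≤ S := by
    rw [lintegral_lintegral_swap (f := fun η θ => w (-(1/2)) (θ + η) *
      (w (9/4) θ * w (-(3/4)) η * h θ ^ 4)) mE.aemeasurable]
    refine le_trans (le_of_eq ?_) stepE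
    refine lintegral_congr fun θ => lintegral_congr fun η => ?_
    rw [add_comm θ η]
  -- Step D
  have stepD : ∫⁻ η : Fin m → ℝ, ∫⁻ θ : Fin m → ℝ,
        w (-(1/2)) (θ + η) * ((w (3/4) η * w (3/4) θ) * (h η ^ 2 * h θ ^ 2)) ≤ S := by
    have key : ∀ᵐ η : Fin m → ℝ, ∫⁻ θ : Fin m → ℝ,
        w (-(1/2)) (θ + η) * ((w (3/4) η * w (3/4) θ) * (h η ^ 2 * h θ ^ 2)) ≤
        ∫⁻ θ : Fin m → ℝ, ((w (-(1/2)) (θ + η) * (w (9/4) η * w (-(3/4)) θ * h η ^ 4)) / 2 +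
          (w (-(1/2)) (θ + η) * (w (9/4) θ * w (-(3/4)) η * h θ ^ 4)) / 2) := by
      filter_upwards [hgood] with η h1
      refine lintegral_mono_ae ?_
      filter_upwards [hgood] with θ h2
      have yo := ENNReal.young_inequality (w (9/8) η * w (-(3/8)) θ * h η ^ 2)
        (w (9/8) θ * w (-(3/8)) η * h θ ^ 2) Real.HolderConjugate.two_two
      have e0 : (w (9/8) η * w (-(3/8)) θ * h η ^ 2) * (w (9/8) θ * w (-(3/8)) η * h θ ^ 2) =
          (w (3/4) η * w (3/4) θ) * (h η ^ 2 * h θ ^ 2) := by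
        have b1 : w (9/8) η * w (-(3/8)) η = w (3/4) η := by
          rw [w_add _ _ h1]; norm_num
        have b2 : w (9/8) θ * w (-(3/8)) θ = w (3/4) θ := by
          rw [w_add _ _ h2]; norm_num
        rw [← b1, ← b2]; ring
      have e1 : (w (9/8) η * w (-(3/8)) θ * h η ^ 2) ^ (2 : ℝ) =
          w (9/4) η * w (-(3/4)) θ * h η ^ 4 := by
        rw [ENNReal.rpow_ofNat, mul_pow, mul_pow, w_sq, w_sq, ← pow_mul]
        norm_num
      have e2 : (w (9/8) θ * w (-(3/8)) η * h θ ^ 2) ^ (2 : ℝ) =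
          w (9/4) θ * w (-(3/4)) η * h θ ^ 4 := by
        rw [ENNReal.rpow_ofNat, mul_pow, mul_pow, w_sq, w_sq, ← pow_mul]
        norm_num
      rw [e0, e1, e2, ENNReal.ofReal_ofNat] at yo
      refine (mul_le_mul_right yo _).trans (le_of_eq ?_)
      rw [mul_add]
      simp only [div_eq_mul_inv, mul_assoc]
    refine (lintegral_mono_ae key).trans ?_
    have mmA : ∀ η : Fin m → ℝ, Measurable (fun θ : Fin m → ℝ =>
        (w (-(1/2)) (θ + η) * (w (9/4) η * w (-(3/4)) θ * h η ^ 4)) / 2) := fun η =>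
      (((w_meas _).comp (measurable_id.add measurable_const)).mul
        (((measurable_const).mul (w_meas _)).mul measurable_const)).div_const _
    have mmAA : Measurable (fun p : (Fin m → ℝ) × (Fin m → ℝ) =>
        (w (-(1/2)) (p.2 + p.1) * (w (9/4) p.1 * w (-(3/4)) p.2 * h p.1 ^ 4)) / 2) :=
      (((w_meas _).comp (measurable_snd.add measurable_fst)).mul
        ((((w_meas _).comp measurable_fst).mul ((w_meas _).comp measurable_snd)).mul
          ((hm.comp measurable_fst).pow_const 4))).div_const _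
    have : ∀ η : Fin m → ℝ, ∫⁻ θ : Fin m → ℝ,
        ((w (-(1/2)) (θ + η) * (w (9/4) η * w (-(3/4)) θ * h η ^ 4)) / 2 +
          (w (-(1/2)) (θ + η) * (w (9/4) θ * w (-(3/4)) η * h θ ^ 4)) / 2) =
        (∫⁻ θ : Fin m → ℝ, (w (-(1/2)) (θ + η) * (w (9/4) η * w (-(3/4)) θ * h η ^ 4)) / 2) +
        ∫⁻ θ : Fin m → ℝ, (w (-(1/2)) (θ + η) * (w (9/4) θ * w (-(3/4)) η * h θ ^ 4)) / 2 := by
      intro η
      rw [lintegral_add_left (mmA η)]
    rw [lintegral_congr this, lintegral_add_left mmAA.lintegral_prod_right']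
    have d1 : ∫⁻ η : Fin m → ℝ, ∫⁻ θ : Fin m → ℝ,
        (w (-(1/2)) (θ + η) * (w (9/4) η * w (-(3/4)) θ * h η ^ 4)) / 2 ≤ S / 2 := by
      have e : ∀ η : Fin m → ℝ, ∫⁻ θ : Fin m → ℝ,
          (w (-(1/2)) (θ + η) * (w (9/4) η * w (-(3/4)) θ * h η ^ 4)) / 2 =
          (2 : ℝ≥0∞)⁻¹ * ∫⁻ θ : Fin m → ℝ, w (-(1/2)) (θ + η) * (w (9/4) η * w (-(3/4)) θ * h η ^ 4) := by
        intro η
        rw [← lintegral_const_mul' _ _ (by norm_num)]
        refine lintegral_congr fun θ => ?_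
        rw [div_eq_mul_inv, mul_comm]
      rw [lintegral_congr e, lintegral_const_mul' _ _ (by norm_num),
        show S / 2 = 2⁻¹ * S by rw [div_eq_mul_inv, mul_comm]]
      exact mul_le_mul' le_rfl stepE
    have d2 : ∫⁻ η : Fin m → ℝ, ∫⁻ θ : Fin m → ℝ,
        (w (-(1/2)) (θ + η) * (w (9/4) θ * w (-(3/4)) η * h θ ^ 4)) / 2 ≤ S / 2 := by
      have e : ∀ η : Fin m → ℝ, ∫⁻ θ : Fin m → ℝ,
          (w (-(1/2)) (θ + η) * (w (9/4) θ * w (-(3/4)) η * h θ ^ 4)) / 2 =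
          (2 : ℝ≥0∞)⁻¹ * ∫⁻ θ : Fin m → ℝ, w (-(1/2)) (θ + η) * (w (9/4) θ * w (-(3/4)) η * h θ ^ 4) := by
        intro η
        rw [← lintegral_const_mul' _ _ (by norm_num)]
        refine lintegral_congr fun θ => ?_
        rw [div_eq_mul_inv, mul_comm]
      rw [lintegral_congr e, lintegral_const_mul' _ _ (by norm_num),
        show S / 2 = 2⁻¹ * S by rw [div_eq_mul_inv, mul_comm]]
      exact mul_le_mul' le_rfl stepE'
    calc _ ≤ S / 2 + S / 2 := add_le_add d1 d2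
      _ = S := ENNReal.add_halves S
  calc ∫⁻ ζ : Fin m → ℝ, (∫⁻ η : Fin m → ℝ, h η * h (ζ - η)) ^ 2
      ≤ ENNReal.ofReal (C1 ^ m) * S := stepC.trans (by gcongr)
    _ = ENNReal.ofReal ((C1 * C2) ^ m) * ∫⁻ η : Fin m → ℝ, w 2 η * h η ^ 4 := by
        rw [hS, ← mul_assoc, ← ENNReal.ofReal_mul (by positivity), mul_pow]

end Pool.Agent.TH400.E4
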