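import Pool.Agent.H372R3.MD5

/-!
# The multiplicative Dirichlet spectrum is contained in `[0, 2/5]`
-/

set_option autoImplicit false

namespace Pool.Agent.TH400.MDSUpper

open Real Filter Topology H372R3.MD

theorem low (x z : ℝ) (hx : 0 < x) (h : 2 / 5 < x * z) : 2 / 5 * (2 - x) < z := by
  have h1 : x * (2 / 5 * (2 - x)) < x * z := by nlinarith [sq_nonneg (x - 1)]
  exact lt_of_mul_lt_mul_left h1 hx.le

theorem final (x y p q r : ℝ) (hx : 0 < x) (hy : 0 < y) (hxy : x + y ≤ 2)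
    (h1 : 2 / 5 < x * p) (h2 : 2 / 5 < y * q) (h3 : 2 / 5 < (x + y) * r) (hs : p + q + r ≤ 1) :
    False := by
  have a1 := low x p hx h1
  have a2 := low y q hy h2
  have a3 : 1 / 5 < r := by
    by_contra h
    push Not at h
    rcases le_or_gt 0 r with hr | hr
    · have : (x + y) * r ≤ 2 * (1 / 5) := mul_le_mul hxy h hr (by norm_num)
      linarith
    · have : (x + y) * r < 0 := mul_neg_of_pos_of_neg (by linarith) hr
      linarith
  linarith

theorem upper (ξ ζ : ℝ) (n : ℕ) (hn : 2 ≤ n) :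
    ∃ q : ℕ, 1 ≤ q ∧ q ≤ n ∧ ((n : ℝ) + 1) * (nn (q * ξ) * nn (q * ζ)) ≤ 2 / 5 := by
  by_contra hcon
  push Not at hcon
  have hnR : (2 : ℝ) ≤ n := by exact_mod_cast hn
  set N : ℝ := (n : ℝ) + 1 with hN
  have hN3 : 3 ≤ N := by linarith
  -- the best approximation a
  obtain ⟨a, ha, hamin⟩ := (Finset.Icc 1 n).exists_min_image (fun q : ℕ => nn (q * ξ))
    ⟨1, by rw [Finset.mem_Icc]; omega⟩
  rw [Finset.mem_Icc] at ha
  have hamin' : ∀ q : ℕ, 1 ≤ q → q ≤ n → nn (a * ξ) ≤ nn (q * ξ) :=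
    fun q h1 h2 => hamin q (by rw [Finset.mem_Icc]; exact ⟨h1, h2⟩)
  obtain ⟨k, hk0, hkn, hk⟩ := Real.exists_nat_abs_mul_sub_round_le ξ (n := n) (by omega)
  have hd1 : N * nn (a * ξ) ≤ 1 := by
    have := (hamin' k hk0 hkn).trans hk
    rw [le_div_iff₀ (by linarith)] at this
    rw [mul_comm]
    exact this
  have Ha := hcon a ha.1 ha.2
  have hd0 : 0 ≤ nn (a * ξ) := nn_nonneg _
  have hz0 : 0 ≤ nn (a * ζ) := nn_nonneg _
  have hz1 : nn (a * ζ) ≤ 1 / 2 := nn_le_half _
  set d := nn (a * ξ) with hd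
  set za := nn (a * ζ) with hza
  have hNd : 4 / 5 < N * d := by nlinarith [mul_nonneg (by linarith : (0:ℝ) ≤ N) hd0]
  have hza2 : 2 / 5 < za := by nlinarith [mul_nonneg (by linarith : (0:ℝ) ≤ N) hd0]
  have hdpos : 0 < d := by
    rcases hd0.lt_or_eq with h | h
    · exact h
    · rw [← h] at hNd; norm_num at hNd
  have hNdza : 2 / 5 < N * d * za := by rw [mul_assoc]; exact Ha
  -- a > n / 2
  have h2a : n < 2 * a := by
    by_contra h
    push Not at h
    have H := hcon (2 * a) (by omega) h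
    have e1 : nn (((2 * a : ℕ) : ℝ) * ξ) ≤ 2 * d := by
      refine (nn_le _ (2 * round (a * ξ))).trans ?_
      rw [hd, nn, show (((2 * a : ℕ) : ℝ) * ξ - ((2 * round (a * ξ) : ℤ) : ℝ)) = 2 * (a * ξ - round (a * ξ)) by
        push_cast; ring, abs_mul, abs_two]
    have e2 : nn (((2 * a : ℕ) : ℝ) * ζ) ≤ 1 - 2 * za := by
      have := nn_sub_le (a * ζ) (-(a * ζ))
      rw [nn_neg] at this
      rw [show (((2 * a : ℕ) : ℝ) * ζ) = a * ζ - -(a * ζ) by push_cast; ring]
      linarith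
    have e3 := nn_nonneg (((2 * a : ℕ) : ℝ) * ξ)
    have e4 := nn_nonneg (((2 * a : ℕ) : ℝ) * ζ)
    have e5 : nn (((2 * a : ℕ) : ℝ) * ξ) * nn (((2 * a : ℕ) : ℝ) * ζ) ≤ 2 * d * (1 - 2 * za) :=
      mul_le_mul e1 e2 e4 (by linarith)
    have e6 : N * (2 * d * (1 - 2 * za)) = 2 * (N * d) - 4 * (N * d * za) := by ring
    have e7 : N * (nn (((2 * a : ℕ) : ℝ) * ξ) * nn (((2 * a : ℕ) : ℝ) * ζ)) ≤ N * (2 * d * (1 - 2 * za)) :=
      mul_le_mul_of_nonneg_left e5 (by linarith)
    rw [e6] at e7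
    linarith
  have ha2 : 2 ≤ a := by omega
  have h2aR : N ≤ 2 * (a : ℝ) := by
    have : (n : ℝ) + 1 ≤ ((2 * a : ℕ) : ℝ) := by exact_mod_cast h2a
    push_cast at this
    linarith
  have haR : (0 : ℝ) < a := by linarith
  -- the previous best approximation b
  obtain ⟨b, hb, hbmin⟩ := (Finset.Icc 1 (a - 1)).exists_min_image (fun q : ℕ => nn (q * ξ))
    ⟨1, by rw [Finset.mem_Icc]; omega⟩
  rw [Finset.mem_Icc] at hb
  have hbmin' : ∀ q : ℕ, 1 ≤ q → q ≤ a - 1 → nn (b * ξ) ≤ nn (q * ξ) :=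
    fun q h1 h2 => hbmin q (by rw [Finset.mem_Icc]; exact ⟨h1, h2⟩)
  obtain ⟨k', hk0', hkn', hk'⟩ := Real.exists_nat_abs_mul_sub_round_le ξ (n := a - 1) (by omega)
  have hbR : (1 : ℝ) ≤ b := by exact_mod_cast hb.1
  have hbaR : (b : ℝ) + 1 ≤ a := by
    have : b + 1 ≤ a := by omega
    exact_mod_cast this
  have hd1' : (a : ℝ) * nn (b * ξ) ≤ 1 := by
    have h := (hbmin' k' hk0' hkn').trans hk'
    have e : ((a - 1 : ℕ) : ℝ) + 1 = a := by
      rw [Nat.cast_sub (by omega)]; push_cast; ring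
    rw [e, le_div_iff₀ haR] at h
    rw [mul_comm]
    exact h
  have hdd : d ≤ nn (b * ξ) := hamin' b hb.1 (by omega)
  have Hb := hcon b hb.1 (by omega)
  have hzb0 : 0 ≤ nn (b * ζ) := nn_nonneg _
  have hzb1 : nn (b * ζ) ≤ 1 / 2 := nn_le_half _
  set d' := nn (b * ξ) with hd'
  set zb := nn (b * ζ) with hzb
  set A := (a : ℝ) * ξ - round ((a : ℝ) * ξ) with hA
  set B := (b : ℝ) * ξ - round ((b : ℝ) * ξ) with hB
  have hdA : d = |A| := rfl
  have hdB : d' = |B| := rfl
  -- opposite signs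
  have hsame : ∀ (h : d' ≤ |A - B|), |A - B| = d' - d → False := by
    intro h1 h2
    linarith
  have hkey : d' ≤ |A - B| := by
    have h1 := hbmin' (a - b) (by omega) (by omega)
    refine h1.trans ?_
    refine (nn_le _ (round ((a : ℝ) * ξ) - round ((b : ℝ) * ξ))).trans ?_
    apply le_of_eq
    congr 1
    rw [Nat.cast_sub (by omega), hA, hB]
    push_cast
    ring
  have hsum : |A + B| = d' - d ∧ |A - B| = d + d' ∧ |(a : ℝ) * B - b * A| = a * d' + b * d := by
    rcases lt_or_ge A 0 with hA0 | hA0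
    · have eA : d = -A := by rw [hdA, abs_of_neg hA0]
      rcases le_or_gt B 0 with hB0 | hB0
      · exfalso
        have eB : d' = -B := by rw [hdB, abs_of_nonpos hB0]
        apply hsame hkey
        rw [abs_of_nonneg (by linarith)]; linarith
      · have eB : d' = B := by rw [hdB, abs_of_pos hB0]
        refine ⟨?_, ?_, ?_⟩
        · rw [abs_of_nonneg (by linarith)]; linarith
        · rw [abs_of_neg (by linarith)]; linarith
        · have : (0:ℝ) ≤ a * B - b * A := by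
            have h1 : 0 ≤ (a:ℝ) * B := mul_nonneg haR.le hB0.le
            have h2 : (b:ℝ) * A ≤ 0 := mul_nonpos_of_nonneg_of_nonpos (by linarith) hA0.le
            linarith
          rw [abs_of_nonneg this, eA, eB]; ring
    · have hApos : 0 < A := by
        rcases hA0.lt_or_eq with h | h
        · exact h
        · exfalso
          rw [hdA, ← h, abs_zero] at hdpos
          exact lt_irrefl _ hdpos
      have eA : d = A := by rw [hdA, abs_of_pos hApos]
      rcases le_or_gt 0 B with hB0 | hB0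
      · exfalso
        have eB : d' = B := by rw [hdB, abs_of_nonneg hB0]
        apply hsame hkey
        rw [abs_of_nonpos (by linarith)]; linarith
      · have eB : d' = -B := by rw [hdB, abs_of_neg hB0]
        refine ⟨?_, ?_, ?_⟩
        · rw [abs_of_nonpos (by linarith)]; linarith
        · rw [abs_of_pos (by linarith)]; linarith
        · have : (a:ℝ) * B - b * A ≤ 0 := by
            have h1 : (a:ℝ) * B ≤ 0 := mul_nonpos_of_nonneg_of_nonpos haR.le hB0.le
            have h2 : 0 ≤ (b:ℝ) * A := mul_nonneg (by linarith) hApos.le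
            linarith
          rw [abs_of_nonpos this, eA, eB]; ring
  obtain ⟨hs1, hs2, hs3⟩ := hsum
  -- unimodularity
  have huni : (a : ℝ) * d' + b * d = 1 := by
    have e : (a : ℝ) * B - b * A = ((b * round ((a : ℝ) * ξ) - a * round ((b : ℝ) * ξ) : ℤ) : ℝ) := by
      rw [hA, hB]; push_cast; ring
    rw [e, ← Int.cast_abs] at hs3
    have h0 : 0 < (b : ℝ) * d := mul_pos (by linarith) hdpos
    have h00 : 0 < (a : ℝ) * d' := mul_pos haR (by linarith)
    have h01 : (b : ℝ) * d ≤ b * d' := mul_le_mul_of_nonneg_left hdd (by linarith)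
    have h02 : (b : ℝ) * d' < a * d' := mul_lt_mul_of_pos_right (by linarith) (by linarith)
    have h1 : 0 < (a : ℝ) * d' + b * d := by linarith
    have h2 : (a : ℝ) * d' + b * d < 2 := by linarith
    rw [← hs3] at h1 h2 ⊢
    have h3 : 0 < |(b * round ((a : ℝ) * ξ) - a * round ((b : ℝ) * ξ) : ℤ)| := by exact_mod_cast h1
    have h4 : |(b * round ((a : ℝ) * ξ) - a * round ((b : ℝ) * ξ) : ℤ)| < 2 := by exact_mod_cast h2
    have h5 : |(b * round ((a : ℝ) * ξ) - a * round ((b : ℝ) * ξ) : ℤ)| = 1 := by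
      generalize |(b * round ((a : ℝ) * ξ) - a * round ((b : ℝ) * ξ) : ℤ)| = t at h3 h4
      omega
    rw [h5]; norm_num
  have hd'0 : 0 ≤ d' := nn_nonneg _
  have hd'pos : 0 < d' := by linarith
  have hbd : 0 < (b : ℝ) * d := mul_pos (by linarith) hdpos
  rcases le_or_gt (a + b) n with hab | hab
  · -- case a + b ≤ n
    have H := hcon (a + b) (by omega) hab
    have e1 : nn (((a + b : ℕ) : ℝ) * ξ) ≤ d' - d := by
      rw [← hs1]
      refine (nn_le _ (round ((a : ℝ) * ξ) + round ((b : ℝ) * ξ))).trans ?_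
      apply le_of_eq
      congr 1
      rw [hA, hB]
      push_cast
      ring
    have e0 := nn_nonneg (((a + b : ℕ) : ℝ) * ξ)
    have e2 : zb ≤ 1 - nn (((a + b : ℕ) : ℝ) * ζ) - za := by
      have := nn_sub_le (((a + b : ℕ) : ℝ) * ζ) (a * ζ)
      rw [show ((a + b : ℕ) : ℝ) * ζ - a * ζ = b * ζ by push_cast; ring] at this
      exact this
    have e3 := nn_nonneg (((a + b : ℕ) : ℝ) * ζ)
    set zc := nn (((a + b : ℕ) : ℝ) * ζ) with hzc
    have f1 : N * d' ≤ 2 * a * d' := mul_le_mul_of_nonneg_right h2aR hd'0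
    have g1 : 2 / 5 < N * (d' - d) * zc := by
      refine lt_of_lt_of_le H ?_
      rw [mul_assoc]
      exact mul_le_mul_of_nonneg_left (mul_le_mul_of_nonneg_right e1 e3) (by linarith)
    have hpos : 0 < N * (d' - d) := by
      by_contra hneg
      push Not at hneg
      have : N * (d' - d) * zc ≤ 0 := mul_nonpos_of_nonpos_of_nonneg hneg e3
      linarith
    refine final (N * d) (N * (d' - d)) za zc zb (by linarith) hpos ?_ hNdza g1 ?_ (by linarith)
    · have : N * d + N * (d' - d) = N * d' := by ring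
      rw [this]; linarith
    · have : (N * d + N * (d' - d)) * zb = N * (d' * zb) := by ring
      rw [this]; exact Hb
  · -- case a + b > n
    have habR : N ≤ (a : ℝ) + b := by
      have : (n : ℝ) + 1 ≤ ((a + b : ℕ) : ℝ) := by exact_mod_cast hab
      push_cast at this
      linarith
    have H := hcon (a - b) (by omega) (by omega)
    have e1 : nn (((a - b : ℕ) : ℝ) * ξ) ≤ d + d' := by
      rw [← hs2]
      refine (nn_le _ (round ((a : ℝ) * ξ) - round ((b : ℝ) * ξ))).trans ?_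
      apply le_of_eq
      congr 1
      rw [Nat.cast_sub (by omega), hA, hB]
      push_cast
      ring
    have e0 := nn_nonneg (((a - b : ℕ) : ℝ) * ξ)
    have e2 : nn (((a - b : ℕ) : ℝ) * ζ) ≤ 1 - za - zb := by
      have := nn_sub_le (a * ζ) (b * ζ)
      rw [show ((a - b : ℕ) : ℝ) * ζ = a * ζ - b * ζ by rw [Nat.cast_sub (by omega)]; ring]
      exact this
    have e3 := nn_nonneg (((a - b : ℕ) : ℝ) * ζ)
    set zc := nn (((a - b : ℕ) : ℝ) * ζ) with hzc
    have f0 : N * d ≤ (a + b) * d := mul_le_mul_of_nonneg_right habR hdpos.le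
    have f1 : a * (d' - d) = 1 - (a + b) * d := by linear_combination huni
    have f2 : N * (d' - d) ≤ 2 * a * (d' - d) := mul_le_mul_of_nonneg_right h2aR (by linarith)
    have g1 : 2 / 5 < N * (d + d') * zc := by
      refine lt_of_lt_of_le H ?_
      rw [mul_assoc]
      exact mul_le_mul_of_nonneg_left (mul_le_mul_of_nonneg_right e1 e3) (by linarith)
    have g2 : 2 / 5 < N * d' * zb := by rw [mul_assoc]; exact Hb
    refine final (N * d) (N * d') za zb zc (by linarith) (mul_pos (by linarith) hd'pos) ?_ hNdza g2 ?_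
      (by linarith)
    · have e5 : N * (d' - d) = N * d' - N * d := by ring
      have e6 : 2 * (a : ℝ) * (d' - d) = 2 * (a * (d' - d)) := by ring
      linarith
    · have : (N * d + N * d') * zc = N * (d + d') * zc := by ring
      rw [this]; exact g1

theorem f_upper (ξ ζ Q : ℝ) (hQ : 2 ≤ Q) : Q * mQ ξ ζ Q ≤ 2 / 5 := by
  have h1 : 2 ≤ ⌊Q⌋₊ := by
    rw [Nat.le_floor_iff (by linarith)]
    exact_mod_cast hQ
  obtain ⟨q, hq1, hq2, hq3⟩ := upper ξ ζ ⌊Q⌋₊ h1
  have h2 : ((⌊Q⌋₊ : ℕ) : ℝ) ≤ Q := Nat.floor_le (by linarith)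
  have h3 : Q ≤ (⌊Q⌋₊ : ℝ) + 1 := (Nat.lt_floor_add_one Q).le
  have h4 := mQ_le ξ ζ Q (q : ℤ) (by exact_mod_cast hq1) (by
    have : (q : ℝ) ≤ (⌊Q⌋₊ : ℝ) := by exact_mod_cast hq2
    push_cast
    linarith)
  push_cast at h4
  have h5 := mQ_nonneg ξ ζ Q
  calc Q * mQ ξ ζ Q ≤ ((⌊Q⌋₊ : ℝ) + 1) * mQ ξ ζ Q := mul_le_mul_of_nonneg_right h3 h5
    _ ≤ ((⌊Q⌋₊ : ℝ) + 1) * (nn (q * ξ) * nn (q * ζ)) := mul_le_mul_of_nonneg_left h4 (by positivity)
    _ ≤ 2 / 5 := hq3

/-- The multiplicative Dirichlet spectrum is contained in `[0, 2/5]`. -/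
theorem LL_le_two_fifths (ξ ζ : ℝ) : LL ξ ζ ≤ 2 / 5 := by
  apply LL_le
  filter_upwards [eventually_ge_atTop (2 : ℝ)] with Q hQ
  exact f_upper ξ ζ Q hQ

end Pool.Agent.TH400.MDSUpper
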